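import Pool.Agent.U293.GE.Abs

/-!
# The group `GE₂(R)` of an algebra with a degree function: degrees of the columns
-/

set_option autoImplicit false

namespace Pool.Agent.U293.GE

/-- `d` is a degree function on the `K`-algebra `R`: it is additive on products of nonzero elements,
satisfies the ultrametric inequality, and its zeros are the constants. -/
structure IsDegree (K : Type) {R : Type} [Field K] [Ring R] [Algebra K R] (d : R → ℕ) : Prop where
  mul : ∀ r s : R, r ≠ 0 → s ≠ 0 → d (r * s) = d r + d s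
  noZero : ∀ r s : R, r ≠ 0 → s ≠ 0 → r * s ≠ 0
  add : ∀ r s : R, d (r + s) ≤ max (d r) (d s)
  const : ∀ r : R, d r = 0 ↔ ∃ k : K, algebraMap K R k = r

/-- the group of the invertible `2 × 2` matrices -/
abbrev G2 (R : Type) [Ring R] : Type := (Matrix (Fin 2) (Fin 2) R)ˣ

variable {K R : Type} [Field K] [Ring R] [Algebra K R] {d : R → ℕ}

/-- the matrices over `K` -/
noncomputable def cA (K R : Type) [Field K] [Ring R] [Algebra K R] : G2 K →* G2 R :=
  Units.map ((algebraMap K R).mapMatrix (m := Fin 2)).toMonoidHom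

/-- `GL₂(K)` -/
noncomputable def subA (K R : Type) [Field K] [Ring R] [Algebra K R] : Subgroup (G2 R) :=
  (cA K R).range

theorem cA_apply (a : G2 K) (i j : Fin 2) :
    (cA K R a : Matrix (Fin 2) (Fin 2) R) i j = algebraMap K R ((a : Matrix (Fin 2) (Fin 2) K) i j) :=
  rfl

/-- upper triangular matrices with constant diagonal -/
def IsB (K : Type) {R : Type} [Field K] [Ring R] [Algebra K R] (g : G2 R) : Prop :=
  (g : Matrix (Fin 2) (Fin 2) R) 1 0 = 0 ∧
    (∃ k : K, k ≠ 0 ∧ (g : Matrix (Fin 2) (Fin 2) R) 0 0 = algebraMap K R k) ∧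
    ∃ k : K, k ≠ 0 ∧ (g : Matrix (Fin 2) (Fin 2) R) 1 1 = algebraMap K R k

omit [Ring R] in
theorem ext2 {M N : Matrix (Fin 2) (Fin 2) R} (h00 : M 0 0 = N 0 0) (h01 : M 0 1 = N 0 1)
    (h10 : M 1 0 = N 1 0) (h11 : M 1 1 = N 1 1) : M = N := by
  ext i j
  fin_cases i <;> fin_cases j <;> assumption

theorem mul2 (M N : Matrix (Fin 2) (Fin 2) R) (i j : Fin 2) :
    (M * N) i j = M i 0 * N 0 j + M i 1 * N 1 j := by
  rw [Matrix.mul_apply, Fin.sum_univ_two]

theorem IsB.one : IsB K (1 : G2 R) := by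
  refine ⟨?_, ⟨1, one_ne_zero, ?_⟩, ⟨1, one_ne_zero, ?_⟩⟩ <;> simp

theorem IsB.mul {g h : G2 R} (hg : IsB K g) (hh : IsB K h) : IsB K (g * h) := by
  obtain ⟨g0, ⟨k, hk, gk⟩, ⟨l, hl, gl⟩⟩ := hg
  obtain ⟨h0, ⟨k', hk', gk'⟩, ⟨l', hl', gl'⟩⟩ := hh
  refine ⟨?_, ⟨k * k', mul_ne_zero hk hk', ?_⟩, ⟨l * l', mul_ne_zero hl hl', ?_⟩⟩
  · rw [Units.val_mul, mul2, g0, h0]
    simp
  · rw [Units.val_mul, mul2, h0, gk, gk']
    simp
  · rw [Units.val_mul, mul2, g0, gl, gl']
    simp

theorem IsB.inv {g : G2 R} (hg : IsB K g) : IsB K g⁻¹ := by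
  obtain ⟨g0, ⟨k, hk, gk⟩, ⟨l, hl, gl⟩⟩ := hg
  have hu : IsUnit (algebraMap K R k) := (IsUnit.mk0 k hk).map _
  have hv : IsUnit (algebraMap K R l) := (IsUnit.mk0 l hl).map _
  have e1 : (g : Matrix (Fin 2) (Fin 2) R) * ((g⁻¹ : G2 R) : Matrix (Fin 2) (Fin 2) R) = 1 :=
    g.mul_inv
  have a10 := congrFun (congrFun e1 1) 0
  have a11 := congrFun (congrFun e1 1) 1
  have a00 := congrFun (congrFun e1 0) 0
  rw [mul2, g0, zero_mul, zero_add, gl] at a10 a11
  rw [mul2, gk] at a00
  simp only [Matrix.one_apply_eq, ne_eq, one_ne_zero, not_false_eq_true, Matrix.one_apply_ne] at a10 a11 a00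
  have b10 : ((g⁻¹ : G2 R) : Matrix (Fin 2) (Fin 2) R) 1 0 = 0 := by
    rwa [hv.mul_right_eq_zero] at a10
  rw [b10, mul_zero, add_zero] at a00
  refine ⟨b10, ⟨k⁻¹, inv_ne_zero hk, ?_⟩, ⟨l⁻¹, inv_ne_zero hl, ?_⟩⟩
  · apply hu.mul_left_cancel
    rw [a00, ← map_mul, mul_inv_cancel₀ hk, map_one]
  · apply hv.mul_left_cancel
    rw [a11, ← map_mul, mul_inv_cancel₀ hl, map_one]

/-- the group of the upper triangular matrices with constant diagonal -/
def subB (K R : Type) [Field K] [Ring R] [Algebra K R] : Subgroup (G2 R) where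
  carrier := {g | IsB K g}
  one_mem' := IsB.one
  mul_mem' := IsB.mul
  inv_mem' := IsB.inv

theorem mem_B {g : G2 R} : g ∈ subB K R ↔ IsB K g := Iff.rfl

namespace IsDegree

variable (h : IsDegree K d)
include h

theorem zero : d 0 = 0 := (h.const 0).2 ⟨0, map_zero _⟩

theorem C (k : K) : d (algebraMap K R k) = 0 := (h.const _).2 ⟨k, rfl⟩

theorem mul_le (r s : R) : d (r * s) ≤ d r + d s := by
  by_cases hr : r = 0
  · rw [hr, zero_mul, h.zero]
    exact Nat.zero_le _
  by_cases hs : s = 0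
  · rw [hs, mul_zero, h.zero]
    exact Nat.zero_le _
  exact (h.mul r s hr hs).le

theorem neg (r : R) : d (-r) = d r := by
  have h1 : ∀ r : R, d (-r) ≤ d r := fun r => by
    have := h.mul_le (algebraMap K R (-1)) r
    rw [h.C, zero_add, map_neg, map_one, neg_one_mul] at this
    exact this
  refine le_antisymm (h1 r) ?_
  have := h1 (-r)
  rwa [neg_neg] at this

theorem mulC_le (r : R) (k : K) : d (r * algebraMap K R k) ≤ d r := by
  have := h.mul_le r (algebraMap K R k)
  rwa [h.C, add_zero] at this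

theorem mulC (r : R) {k : K} (hk : k ≠ 0) : d (r * algebraMap K R k) = d r := by
  refine le_antisymm (h.mulC_le r k) ?_
  have h1 := h.mulC_le (r * algebraMap K R k) k⁻¹
  rwa [mul_assoc, ← map_mul, mul_inv_cancel₀ hk, map_one, mul_one] at h1

/-- the larger degree wins -/
theorem add_eq {r s : R} (hlt : d s < d r) : d (r + s) = d r := by
  refine le_antisymm ((h.add r s).trans (max_le le_rfl hlt.le)) ?_
  have h1 := h.add (r + s) (-s)
  rw [add_neg_cancel_right, h.neg] at h1
  rcases le_max_iff.1 h1 with h2 | h2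
  · exact h2
  · omega

end IsDegree

/-- the degree of the first column -/
def d1 (d : R → ℕ) (g : G2 R) : ℕ :=
  max (d ((g : Matrix (Fin 2) (Fin 2) R) 0 0)) (d ((g : Matrix (Fin 2) (Fin 2) R) 1 0))

/-- the degree of the second column -/
def d0 (d : R → ℕ) (g : G2 R) : ℕ :=
  max (d ((g : Matrix (Fin 2) (Fin 2) R) 0 1)) (d ((g : Matrix (Fin 2) (Fin 2) R) 1 1))

theorem le_mx (g : G2 R) (i j : Fin 2) :
    d ((g : Matrix (Fin 2) (Fin 2) R) i j) ≤ max (d0 d g) (d1 d g) := by
  unfold d0 d1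
  fin_cases i <;> fin_cases j
  · exact (le_max_left _ _).trans (le_max_right _ _)
  · exact (le_max_left _ _).trans (le_max_left _ _)
  · exact (le_max_right _ _).trans (le_max_right _ _)
  · exact (le_max_right _ _).trans (le_max_left _ _)

theorem mx_le {g : G2 R} {n : ℕ} (hn : ∀ i j, d ((g : Matrix (Fin 2) (Fin 2) R) i j) ≤ n) :
    max (d0 d g) (d1 d g) ≤ n :=
  max_le (max_le (hn 0 1) (hn 1 1)) (max_le (hn 0 0) (hn 1 0))

theorem mxA_le (h : IsDegree K d) (g a : G2 R) (ha : a ∈ subA K R) :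
    max (d0 d (g * a)) (d1 d (g * a)) ≤ max (d0 d g) (d1 d g) := by
  obtain ⟨a, rfl⟩ := ha
  refine mx_le fun i j => ?_
  rw [Units.val_mul, mul2, cA_apply, cA_apply]
  refine (h.add _ _).trans (max_le ?_ ?_)
  · exact (h.mulC_le _ _).trans (le_mx g i 0)
  · exact (h.mulC_le _ _).trans (le_mx g i 1)

theorem col_ne (g : G2 R) [Nontrivial R] (j : Fin 2) :
    (g : Matrix (Fin 2) (Fin 2) R) 0 j ≠ 0 ∨ (g : Matrix (Fin 2) (Fin 2) R) 1 j ≠ 0 := by
  by_contra hc
  push Not at hc
  have e1 : ((g⁻¹ : G2 R) : Matrix (Fin 2) (Fin 2) R) * (g : Matrix (Fin 2) (Fin 2) R) = 1 :=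
    g.inv_mul
  have a := congrFun (congrFun e1 j) j
  rw [mul2, hc.1, hc.2, mul_zero, mul_zero, add_zero, Matrix.one_apply_eq] at a
  exact zero_ne_one a

/-- a matrix over `K` whose first column is a multiple of the first basis vector is triangular -/
theorem cA_mem_B {a : G2 K} (h : (a : Matrix (Fin 2) (Fin 2) K) 1 0 = 0) :
    cA K R a ∈ subB K R := by
  have e1 : (a : Matrix (Fin 2) (Fin 2) K) * ((a⁻¹ : G2 K) : Matrix (Fin 2) (Fin 2) K) = 1 :=
    a.mul_inv
  have e2 : ((a⁻¹ : G2 K) : Matrix (Fin 2) (Fin 2) K) * (a : Matrix (Fin 2) (Fin 2) K) = 1 :=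
    a.inv_mul
  have a11 := congrFun (congrFun e1 1) 1
  have a00 := congrFun (congrFun e2 0) 0
  rw [mul2, h, zero_mul, zero_add, Matrix.one_apply_eq] at a11
  rw [mul2, h, mul_zero, add_zero, Matrix.one_apply_eq] at a00
  refine ⟨?_, ⟨_, ?_, cA_apply a 0 0⟩, ⟨_, ?_, cA_apply a 1 1⟩⟩
  · rw [cA_apply, h, map_zero]
  · exact right_ne_zero_of_mul_eq_one a00
  · exact left_ne_zero_of_mul_eq_one a11

theorem levelPair [Nontrivial R] (h : IsDegree K d) :
    LevelPair (subA K R) (subB K R) (d0 d) (d1 d) := by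
  refine ⟨?_, ?_, ?_, ?_, ?_⟩
  · intro g a ha
    refine le_antisymm (mxA_le h g a ha) ?_
    have := mxA_le h (g * a) a⁻¹ (inv_mem ha)
    rwa [mul_inv_cancel_right] at this
  · rintro g b ⟨b0, ⟨k, hk, bk⟩, -⟩
    unfold d1
    rw [Units.val_mul, mul2, mul2, b0, bk, mul_zero, mul_zero, add_zero, add_zero, h.mulC _ hk,
      h.mulC _ hk]
  · rintro _ ⟨a, rfl⟩
    unfold d0
    rw [cA_apply, cA_apply, h.C, h.C]
    exact Nat.zero_le _
  · rintro g _ _ ⟨a, rfl⟩ ⟨a', rfl⟩ hlt hlt'
    rw [← map_inv, ← map_mul]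
    apply cA_mem_B
    by_contra hne
    -- the first columns of `a` and `a'` are independent
    obtain ⟨c, hc⟩ : ∃ c : G2 K, c = a⁻¹ * a' := ⟨_, rfl⟩
    rw [← hc] at hne
    have ha' : a' = a * c := by rw [hc, mul_inv_cancel_left]
    have hval : ∀ i, ((g * cA K R a' : G2 R) : Matrix (Fin 2) (Fin 2) R) i 0 =
        ((g * cA K R a : G2 R) : Matrix (Fin 2) (Fin 2) R) i 0 * algebraMap K R (c.1 0 0) +
        ((g * cA K R a : G2 R) : Matrix (Fin 2) (Fin 2) R) i 1 * algebraMap K R (c.1 1 0) := by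
      intro i
      rw [ha', map_mul, ← mul_assoc, Units.val_mul (g * cA K R a), mul2, cA_apply, cA_apply]
    have hmx : max (d0 d (g * cA K R a)) (d1 d (g * cA K R a)) = max (d0 d g) (d1 d g) := by
      refine le_antisymm (mxA_le h g _ ⟨a, rfl⟩) ?_
      have := mxA_le h (g * cA K R a) (cA K R a)⁻¹ (inv_mem ⟨a, rfl⟩)
      rwa [mul_inv_cancel_right] at this
    have h1 : d0 d (g * cA K R a) < max (d0 d g) (d1 d g) := by
      have key : ∀ i, d (((g * cA K R a : G2 R) : Matrix (Fin 2) (Fin 2) R) i 1) <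
          max (d0 d g) (d1 d g) := by
        intro i
        have e : ((g * cA K R a : G2 R) : Matrix (Fin 2) (Fin 2) R) i 1 * algebraMap K R (c.1 1 0) =
            ((g * cA K R a' : G2 R) : Matrix (Fin 2) (Fin 2) R) i 0 +
            (-(((g * cA K R a : G2 R) : Matrix (Fin 2) (Fin 2) R) i 0 *
              algebraMap K R (c.1 0 0))) := by
          rw [hval]
          abel
        rw [← h.mulC _ hne, e]
        refine lt_of_le_of_lt (h.add _ _) (max_lt ?_ ?_)
        · refine lt_of_le_of_lt ?_ hlt'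
          unfold d1
          fin_cases i
          · exact le_max_left _ _
          · exact le_max_right _ _
        · rw [h.neg]
          refine lt_of_le_of_lt (h.mulC_le _ _) (lt_of_le_of_lt ?_ hlt)
          unfold d1
          fin_cases i
          · exact le_max_left _ _
          · exact le_max_right _ _
      exact max_lt (key 0) (key 1)
    rw [← hmx] at h1 hlt
    have h2 := max_lt h1 hlt
    exact lt_irrefl _ h2
  · rintro g b ⟨b0, ⟨k, hk, bk⟩, ⟨l, hl, bl⟩⟩ hbA hle
    -- the degree of the entry `b 0 1` is positive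
    have hpos : 0 < d ((b : Matrix (Fin 2) (Fin 2) R) 0 1) := by
      by_contra hz
      obtain ⟨m, hm⟩ := (h.const _).1 (Nat.eq_zero_of_not_pos hz)
      apply hbA
      have hdet : (!![k, m; 0, l] : Matrix (Fin 2) (Fin 2) K).det ≠ 0 := by
        rw [Matrix.det_fin_two_of, mul_zero, sub_zero]
        exact mul_ne_zero hk hl
      refine ⟨Matrix.GeneralLinearGroup.mkOfDetNeZero _ hdet, ?_⟩
      apply Units.ext
      refine ext2 ?_ ?_ ?_ ?_
      · rw [cA_apply, bk]
        rfl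
      · rw [cA_apply, ← hm]
        rfl
      · rw [cA_apply, b0]
        change algebraMap K R 0 = 0
        exact map_zero _
      · rw [cA_apply, bl]
        rfl
    have hb01 : (b : Matrix (Fin 2) (Fin 2) R) 0 1 ≠ 0 := by
      intro h0
      rw [h0, h.zero] at hpos
      exact lt_irrefl _ hpos
    have ent : ∀ i, ((g * b : G2 R) : Matrix (Fin 2) (Fin 2) R) i 1 =
        (g : Matrix (Fin 2) (Fin 2) R) i 0 * (b : Matrix (Fin 2) (Fin 2) R) 0 1 +
        (g : Matrix (Fin 2) (Fin 2) R) i 1 * algebraMap K R l := by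
      intro i
      rw [Units.val_mul, mul2, bl]
    -- an entry of the first column of maximal degree
    obtain ⟨i, hi, hi0⟩ : ∃ i, d ((g : Matrix (Fin 2) (Fin 2) R) i 0) = d1 d g ∧
        (g : Matrix (Fin 2) (Fin 2) R) i 0 ≠ 0 := by
      rcases le_total (d ((g : Matrix (Fin 2) (Fin 2) R) 0 0))
        (d ((g : Matrix (Fin 2) (Fin 2) R) 1 0)) with hh | hh
      · by_cases hz : (g : Matrix (Fin 2) (Fin 2) R) 1 0 = 0
        · refine ⟨0, ?_, (col_ne g 0).resolve_right (fun h => h hz)⟩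
          unfold d1
          rw [hz, h.zero] at hh ⊢
          rw [max_eq_left (Nat.zero_le _)]
        · exact ⟨1, (max_eq_right hh).symm, hz⟩
      · by_cases hz : (g : Matrix (Fin 2) (Fin 2) R) 0 0 = 0
        · refine ⟨1, ?_, (col_ne g 0).resolve_left (fun h => h hz)⟩
          unfold d1
          rw [hz, h.zero] at hh ⊢
          rw [max_eq_right (Nat.zero_le _)]
        · exact ⟨0, (max_eq_left hh).symm, hz⟩
    have e1 := h.mul _ _ hi0 hb01
    have e2 : d ((g : Matrix (Fin 2) (Fin 2) R) i 1 * algebraMap K R l) ≤ d1 d g := by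
      refine (h.mulC_le _ _).trans (le_trans ?_ hle)
      unfold d0
      fin_cases i
      · exact le_max_left _ _
      · exact le_max_right _ _
    have e3 : d (((g * b : G2 R) : Matrix (Fin 2) (Fin 2) R) i 1) =
        d1 d g + d ((b : Matrix (Fin 2) (Fin 2) R) 0 1) := by
      rw [ent, h.add_eq, e1, hi]
      rw [e1, hi]
      omega
    have e4 : d (((g * b : G2 R) : Matrix (Fin 2) (Fin 2) R) i 1) ≤ d0 d (g * b) := by
      unfold d0
      fin_cases i
      · exact le_max_left _ _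
      · exact le_max_right _ _
    omega

end Pool.Agent.U293.GE
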