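import Pool.Agent.U293.GE.Cls
import Pool.Agent.U293.GE.Mat

/-!
# `GE₂(R)` is in the class
-/

set_option autoImplicit false

namespace Pool.Agent.U293.GE

open Pool.Agent.Y110.FJ (ClosedE)
open Pool.Agent.N509.TX (AcylF of_fg C_stab)
open Pool.Agent.R941.FJ (C_equiv C_le mem_sup_normal)

variable {C : ∀ (G : Type) [Group G], Prop}
variable {K R : Type} [Field K] [Ring R] [Algebra K R] {d : R → ℕ}

theorem algebraMap_inj [Nontrivial R] : Function.Injective (algebraMap K R) :=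
  (algebraMap K R).injective

theorem cA_inj [Nontrivial R] : Function.Injective (cA K R) := by
  intro a b hab
  apply Units.ext
  ext i j
  apply algebraMap_inj (K := K) (R := R)
  rw [← cA_apply, ← cA_apply, hab]

/-- the scalar matrices -/
noncomputable def scal (K R : Type) [Field K] [Ring R] [Algebra K R] : Kˣ →* G2 R :=
  Units.map (algebraMap K (Matrix (Fin 2) (Fin 2) R)).toMonoidHom

/-- the group of the scalar matrices -/
noncomputable def subZ (K R : Type) [Field K] [Ring R] [Algebra K R] : Subgroup (G2 R) :=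
  (scal K R).range

theorem scal_central (k : Kˣ) (x : G2 R) : scal K R k * x = x * scal K R k := by
  apply Units.ext
  exact Algebra.commutes (k : K) (x : Matrix (Fin 2) (Fin 2) R)

theorem Z_central (z : G2 R) (hz : z ∈ subZ K R) (x : G2 R) : z * x = x * z := by
  obtain ⟨k, rfl⟩ := hz
  exact scal_central k x

theorem scal_apply (k : Kˣ) (i j : Fin 2) :
    (scal K R k : Matrix (Fin 2) (Fin 2) R) i j = if i = j then algebraMap K R k else 0 := by
  change (algebraMap K (Matrix (Fin 2) (Fin 2) R) (k : K)) i j = _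
  rw [Matrix.algebraMap_matrix_apply]

theorem cA_scal (k : Kˣ) : cA K R (scal K K k) = scal K R k := by
  apply Units.ext
  ext i j
  rw [cA_apply, scal_apply, scal_apply]
  split_ifs
  · rfl
  · exact map_zero _

theorem Z_le_A : subZ K R ≤ subA K R := by
  rintro _ ⟨k, rfl⟩
  exact ⟨scal K K k, cA_scal k⟩

theorem Z_le_B : subZ K R ≤ subB K R := by
  rintro _ ⟨k, rfl⟩
  refine ⟨?_, ⟨k, k.ne_zero, ?_⟩, ⟨k, k.ne_zero, ?_⟩⟩
  · rw [scal_apply]
    simp
  · rw [scal_apply]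
    simp
  · rw [scal_apply]
    simp

/-- elements of both groups -/
theorem both [Nontrivial R] {t : G2 R} (ht : t ∈ subA K R ⊓ subB K R) :
    ∃ a : G2 K, cA K R a = t ∧ (a : Matrix (Fin 2) (Fin 2) K) 1 0 = 0 ∧
      (a : Matrix (Fin 2) (Fin 2) K) 0 0 ≠ 0 ∧ (a : Matrix (Fin 2) (Fin 2) K) 1 1 ≠ 0 := by
  obtain ⟨⟨a, rfl⟩, h0, ⟨k, hk, hk'⟩, ⟨l, hl, hl'⟩⟩ := ht
  refine ⟨a, rfl, ?_, ?_, ?_⟩
  · apply algebraMap_inj (K := K) (R := R)
    rw [← cA_apply, h0, map_zero]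
  · rw [cA_apply] at hk'
    rw [algebraMap_inj hk']
    exact hk
  · rw [cA_apply] at hl'
    rw [algebraMap_inj hl']
    exact hl

theorem core [Nontrivial R] (h : IsDegree K d) : Core (subA K R) (subB K R) (subZ K R) := by
  rintro t0 t s a b ht0 ht hs ⟨a, rfl⟩ haB ⟨b0, ⟨k, hk, bk⟩, ⟨l, hl, bl⟩⟩ hbA e1 e2
  obtain ⟨t0, rfl, p0, p1, p2⟩ := both ht0
  obtain ⟨t, rfl, q0, q1, q2⟩ := both ht
  obtain ⟨s, rfl, r0, r1, r2⟩ := both hs
  have hc : (a : Matrix (Fin 2) (Fin 2) K) 1 0 ≠ 0 := fun hc => haB (cA_mem_B hc)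
  rw [← map_mul, ← map_mul] at e1
  have e1' := congrArg (fun g : G2 K => (g : Matrix (Fin 2) (Fin 2) K)) (cA_inj e1)
  simp only [Units.val_mul] at e1'
  have e2' := congrArg (fun g : G2 R => (g : Matrix (Fin 2) (Fin 2) R)) e2
  simp only [Units.val_mul] at e2'
  have u00 := congrFun (congrFun e2' 0) 0
  have u01 := congrFun (congrFun e2' 0) 1
  have u11 := congrFun (congrFun e2' 1) 1
  rw [mul2, mul2] at u00 u01 u11
  simp only [cA_apply, b0, bk, bl, q0, r0, map_zero, mul_zero, zero_mul, add_zero, zero_add,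
    ← map_mul] at u00 u01 u11
  have v00 := algebraMap_inj u00
  have v11 := algebraMap_inj u11
  have w10 := congrFun (congrFun e1' 1) 0
  have w11 := congrFun (congrFun e1' 1) 1
  rw [mul2, mul2] at w10 w11
  simp only [q0, p0, mul_zero, zero_mul, add_zero, zero_add] at w10 w11
  -- the diagonal entries of `s` and `t` are equal
  have v00' : (s : Matrix (Fin 2) (Fin 2) K) 0 0 = (t : Matrix (Fin 2) (Fin 2) K) 0 0 := by
    apply mul_left_cancel₀ hk
    rw [v00, mul_comm]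
  have v11' : (s : Matrix (Fin 2) (Fin 2) K) 1 1 = (t : Matrix (Fin 2) (Fin 2) K) 1 1 := by
    apply mul_left_cancel₀ hl
    rw [v11, mul_comm]
  -- equal diagonal entries
  have hαβ : (t : Matrix (Fin 2) (Fin 2) K) 0 0 = (t : Matrix (Fin 2) (Fin 2) K) 1 1 := by
    by_contra hne
    have hne' : (t : Matrix (Fin 2) (Fin 2) K) 1 1 - (t : Matrix (Fin 2) (Fin 2) K) 0 0 ≠ 0 :=
      sub_ne_zero.2 (Ne.symm hne)
    have hr : (b : Matrix (Fin 2) (Fin 2) R) 0 1 * algebraMap K R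
        ((t : Matrix (Fin 2) (Fin 2) K) 1 1 - (t : Matrix (Fin 2) (Fin 2) K) 0 0) =
        algebraMap K R ((t : Matrix (Fin 2) (Fin 2) K) 0 1 * l -
          k * (s : Matrix (Fin 2) (Fin 2) K) 0 1) := by
      have c1 := (Algebra.commutes ((t : Matrix (Fin 2) (Fin 2) K) 0 0)
        ((b : Matrix (Fin 2) (Fin 2) R) 0 1))
      rw [map_sub, map_sub, mul_sub, ← c1]
      rw [v11'] at u01
      have : algebraMap K R ((t : Matrix (Fin 2) (Fin 2) K) 0 1 * l) =
        algebraMap K R (k * (s : Matrix (Fin 2) (Fin 2) K) 0 1) +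
        (b : Matrix (Fin 2) (Fin 2) R) 0 1 * algebraMap K R ((t : Matrix (Fin 2) (Fin 2) K) 1 1) -
        algebraMap K R ((t : Matrix (Fin 2) (Fin 2) K) 0 0) * (b : Matrix (Fin 2) (Fin 2) R) 0 1 := by
        rw [u01]
        abel
      rw [this]
      abel
    obtain ⟨m, hm⟩ : ∃ m : K, algebraMap K R m = (b : Matrix (Fin 2) (Fin 2) R) 0 1 := by
      rw [← h.const, ← h.mulC _ hne', hr, h.C]
    apply hbA
    have hdet : (!![k, m; 0, l] : Matrix (Fin 2) (Fin 2) K).det ≠ 0 := by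
      rw [Matrix.det_fin_two_of, mul_zero, sub_zero]
      exact mul_ne_zero hk hl
    refine ⟨Matrix.GeneralLinearGroup.mkOfDetNeZero _ hdet, ?_⟩
    apply Units.ext
    refine ext2 ?_ ?_ ?_ ?_
    · rw [cA_apply, bk]
      rfl
    · rw [cA_apply, ← hm]
      rfl
    · rw [cA_apply, b0]
      change algebraMap K R 0 = 0
      exact map_zero _
    · rw [cA_apply, bl]
      rfl
  -- the entry above the diagonal vanishes
  have hβ0 : (t0 : Matrix (Fin 2) (Fin 2) K) 1 1 = (t : Matrix (Fin 2) (Fin 2) K) 0 0 := by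
    apply mul_right_cancel₀ hc
    rw [← w10, mul_comm]
  have hγ : (t : Matrix (Fin 2) (Fin 2) K) 0 1 = 0 := by
    rw [hβ0, ← hαβ, mul_comm _ ((t : Matrix (Fin 2) (Fin 2) K) 0 0), add_eq_right] at w11
    exact (mul_eq_zero.1 w11).resolve_left hc
  refine ⟨Units.mk0 _ q1, ?_⟩
  apply Units.ext
  refine ext2 ?_ ?_ ?_ ?_
  · rw [scal_apply, cA_apply]
    simp
  · rw [scal_apply, cA_apply, hγ]
    simp
  · rw [scal_apply, cA_apply, q0]
    simp
  · rw [scal_apply, cA_apply, ← hαβ]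
    simp

/-! ### the group `B` is solvable -/

/-- the unipotent matrices -/
def subU (K R : Type) [Field K] [Ring R] [Algebra K R] : Subgroup ↥(subB K R) where
  carrier := {g | ((g : G2 R) : Matrix (Fin 2) (Fin 2) R) 0 0 = 1 ∧
    ((g : G2 R) : Matrix (Fin 2) (Fin 2) R) 1 1 = 1}
  one_mem' := by simp
  mul_mem' := by
    rintro ⟨g, g0, hg⟩ ⟨h, h0, hh⟩ ⟨g1, g2⟩ ⟨h1, h2⟩
    change (g : Matrix (Fin 2) (Fin 2) R) 0 0 = 1 at g1
    change (g : Matrix (Fin 2) (Fin 2) R) 1 1 = 1 at g2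
    change (h : Matrix (Fin 2) (Fin 2) R) 0 0 = 1 at h1
    change (h : Matrix (Fin 2) (Fin 2) R) 1 1 = 1 at h2
    constructor
    · change ((g * h : G2 R) : Matrix (Fin 2) (Fin 2) R) 0 0 = 1
      rw [Units.val_mul, mul2, g1, h1, h0]
      simp
    · change ((g * h : G2 R) : Matrix (Fin 2) (Fin 2) R) 1 1 = 1
      rw [Units.val_mul, mul2, g2, h2, g0]
      simp
  inv_mem' := by
    rintro ⟨g, hg⟩ ⟨g1, g2⟩
    change (g : Matrix (Fin 2) (Fin 2) R) 0 0 = 1 at g1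
    change (g : Matrix (Fin 2) (Fin 2) R) 1 1 = 1 at g2
    have hi := hg.inv.1
    have e1 : (g : Matrix (Fin 2) (Fin 2) R) * ((g⁻¹ : G2 R) : Matrix (Fin 2) (Fin 2) R) = 1 :=
      g.mul_inv
    have a11 := congrFun (congrFun e1 1) 1
    have a00 := congrFun (congrFun e1 0) 0
    rw [mul2, hg.1, g2, Matrix.one_apply_eq] at a11
    rw [mul2, g1, hi, Matrix.one_apply_eq] at a00
    simp only [one_mul, zero_mul, mul_zero, zero_add, add_zero] at a11 a00
    exact ⟨a00, a11⟩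

theorem dia0 {g h : G2 R} (hh : IsB K h) :
    ((g * h : G2 R) : Matrix (Fin 2) (Fin 2) R) 0 0 =
      (g : Matrix (Fin 2) (Fin 2) R) 0 0 * (h : Matrix (Fin 2) (Fin 2) R) 0 0 := by
  rw [Units.val_mul, mul2, hh.1, mul_zero, add_zero]

theorem dia1 {g h : G2 R} (hg : IsB K g) :
    ((g * h : G2 R) : Matrix (Fin 2) (Fin 2) R) 1 1 =
      (g : Matrix (Fin 2) (Fin 2) R) 1 1 * (h : Matrix (Fin 2) (Fin 2) R) 1 1 := by
  rw [Units.val_mul, mul2, hg.1, zero_mul, zero_add]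

theorem commutator_le_U : ⁅(⊤ : Subgroup ↥(subB K R)), ⊤⁆ ≤ subU K R := by
  rw [Subgroup.commutator_le]
  rintro ⟨g, hg⟩ - ⟨h, hh⟩ -
  obtain ⟨-, ⟨k, -, gk⟩, ⟨l, -, gl⟩⟩ := id hg
  obtain ⟨-, ⟨k', -, hk'⟩, ⟨l', -, hl'⟩⟩ := id hh
  have c1 : (g : Matrix (Fin 2) (Fin 2) R) 0 0 * (h : Matrix (Fin 2) (Fin 2) R) 0 0 =
      (h : Matrix (Fin 2) (Fin 2) R) 0 0 * (g : Matrix (Fin 2) (Fin 2) R) 0 0 := by
    rw [gk, hk', ← map_mul, ← map_mul, mul_comm]
  have c2 : (g : Matrix (Fin 2) (Fin 2) R) 1 1 * (h : Matrix (Fin 2) (Fin 2) R) 1 1 =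
      (h : Matrix (Fin 2) (Fin 2) R) 1 1 * (g : Matrix (Fin 2) (Fin 2) R) 1 1 := by
    rw [gl, hl', ← map_mul, ← map_mul, mul_comm]
  have i0 : ∀ {x : G2 R}, IsB K x → (x : Matrix (Fin 2) (Fin 2) R) 0 0 *
      ((x⁻¹ : G2 R) : Matrix (Fin 2) (Fin 2) R) 0 0 = 1 := by
    intro x hx
    rw [← dia0 hx.inv, mul_inv_cancel]
    simp
  have i1 : ∀ {x : G2 R}, IsB K x → (x : Matrix (Fin 2) (Fin 2) R) 1 1 *
      ((x⁻¹ : G2 R) : Matrix (Fin 2) (Fin 2) R) 1 1 = 1 := by
    intro x hx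
    rw [← dia1 hx, mul_inv_cancel]
    simp
  constructor
  · change ((g * h * g⁻¹ * h⁻¹ : G2 R) : Matrix (Fin 2) (Fin 2) R) 0 0 = 1
    rw [dia0 hh.inv, dia0 hg.inv, dia0 hh, c1, mul_assoc ((h : Matrix (Fin 2) (Fin 2) R) 0 0),
      i0 hg, mul_one, i0 hh]
  · change ((g * h * g⁻¹ * h⁻¹ : G2 R) : Matrix (Fin 2) (Fin 2) R) 1 1 = 1
    rw [dia1 ((hg.mul hh).mul hg.inv), dia1 (hg.mul hh), dia1 hg, c2,
      mul_assoc ((h : Matrix (Fin 2) (Fin 2) R) 1 1), i1 hg, mul_one, i1 hh]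

theorem U_comm (x y : ↥(subB K R)) (hx : x ∈ subU K R) (hy : y ∈ subU K R) : x * y = y * x := by
  obtain ⟨x, x0, hx'⟩ := x
  obtain ⟨y, y0, hy'⟩ := y
  obtain ⟨x1, x2⟩ := hx
  obtain ⟨y1, y2⟩ := hy
  change (x : Matrix (Fin 2) (Fin 2) R) 0 0 = 1 at x1
  change (x : Matrix (Fin 2) (Fin 2) R) 1 1 = 1 at x2
  change (y : Matrix (Fin 2) (Fin 2) R) 0 0 = 1 at y1
  change (y : Matrix (Fin 2) (Fin 2) R) 1 1 = 1 at y2
  apply Subtype.ext
  apply Units.ext
  change (x : Matrix (Fin 2) (Fin 2) R) * (y : Matrix (Fin 2) (Fin 2) R) =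
    (y : Matrix (Fin 2) (Fin 2) R) * (x : Matrix (Fin 2) (Fin 2) R)
  refine ext2 ?_ ?_ ?_ ?_ <;> simp only [mul2, x0, y0, x1, x2, y1, y2] <;> simp [add_comm]

theorem B_solvable : Group.IsSolvable ↥(subB K R) := by
  refine ⟨⟨2, ?_⟩⟩
  rw [derivedSeries_succ, derivedSeries_one, eq_bot_iff, Subgroup.commutator_le]
  intro x hx y hy
  have hx' := commutator_le_U hx
  have hy' := commutator_le_U hy
  rw [Subgroup.mem_bot, commutatorElement_eq_one_iff_mul_comm]
  exact U_comm x y hx' hy'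

/-! ### the adjoint representation -/

/-- conjugation on matrices -/
noncomputable def adj0 (K : Type) [Field K] : G2 K →* Module.End K (Matrix (Fin 2) (Fin 2) K) where
  toFun a :=
    { toFun := fun X => (a : Matrix (Fin 2) (Fin 2) K) * X *
        ((a⁻¹ : G2 K) : Matrix (Fin 2) (Fin 2) K)
      map_add' := fun X Y => by rw [mul_add, add_mul]
      map_smul' := fun k X => by
        rw [Matrix.mul_smul, Matrix.smul_mul]
        rfl }
  map_one' := by
    ext1 X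
    simp
  map_mul' a b := by
    ext1 X
    simp [mul_assoc]

theorem adj0_eq_one {a : G2 K} : adj0 K a = 1 ↔ a ∈ subZ K K := by
  constructor
  · intro ha
    have h1 : ∀ X : Matrix (Fin 2) (Fin 2) K, (a : Matrix (Fin 2) (Fin 2) K) * X =
        X * (a : Matrix (Fin 2) (Fin 2) K) := by
      intro X
      have h2 := congrArg (fun f : Module.End K (Matrix (Fin 2) (Fin 2) K) =>
        f X * (a : Matrix (Fin 2) (Fin 2) K)) ha
      change (a : Matrix (Fin 2) (Fin 2) K) * X * ((a⁻¹ : G2 K) : Matrix (Fin 2) (Fin 2) K) *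
        (a : Matrix (Fin 2) (Fin 2) K) = X * (a : Matrix (Fin 2) (Fin 2) K) at h2
      rwa [mul_assoc _ ((a⁻¹ : G2 K) : Matrix (Fin 2) (Fin 2) K), a.inv_mul, mul_one] at h2
    have e1 := congrFun (congrFun (h1 !![0, 1; 0, 0]) 0) 1
    have e2 := congrFun (congrFun (h1 !![0, 1; 0, 0]) 0) 0
    have e3 := congrFun (congrFun (h1 !![0, 0; 1, 0]) 0) 0
    rw [mul2, mul2] at e1 e2 e3
    simp at e1 e2 e3
    have h00 : (a : Matrix (Fin 2) (Fin 2) K) 0 0 ≠ 0 := by
      intro h0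
      have e4 : (a : Matrix (Fin 2) (Fin 2) K) * ((a⁻¹ : G2 K) : Matrix (Fin 2) (Fin 2) K) = 1 :=
        a.mul_inv
      have e5 := congrFun (congrFun e4 0) 0
      rw [mul2, h0, e3, zero_mul, zero_mul, add_zero, Matrix.one_apply_eq] at e5
      exact zero_ne_one e5
    refine ⟨Units.mk0 _ h00, ?_⟩
    apply Units.ext
    refine ext2 ?_ ?_ ?_ ?_
    · rw [scal_apply]
      simp
    · rw [scal_apply, e3]
      simp
    · rw [scal_apply, ← e2]
      simp
    · rw [scal_apply, ← e1]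
      simp
  · rintro ⟨k, rfl⟩
    ext1 X
    change ((scal K K k : G2 K) : Matrix (Fin 2) (Fin 2) K) * X *
      (((scal K K k)⁻¹ : G2 K) : Matrix (Fin 2) (Fin 2) K) = X
    have h1 : ((scal K K k : G2 K) : Matrix (Fin 2) (Fin 2) K) * X =
        X * ((scal K K k : G2 K) : Matrix (Fin 2) (Fin 2) K) :=
      Algebra.commutes (k : K) X
    rw [h1, mul_assoc, Units.mul_inv, mul_one]

/-- **The theorem for `GE₂(R)`.** -/
theorem main [Nontrivial R] (hC : ClosedE C) (hAc : AcylF C)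
    (hS : ∀ (G : Type) [Group G], Group.IsSolvable G → C G)
    (hK : ∀ n : ℕ, C (Matrix.GeneralLinearGroup (Fin n) K)) (h : IsDegree K d) :
    C ↥(subA K R ⊔ subB K R) := by
  have hA : C ↥(subA K R) :=
    C_equiv hC.base (MonoidHom.ofInjective (cA_inj (K := K) (R := R))).symm (hK 2)
  have hBs : Group.IsSolvable ↥(subB K R) := B_solvable
  have hB : C ↥(subB K R) := hS _ hBs
  -- the homomorphism on `A`
  let b := Module.finBasis K (Matrix (Fin 2) (Fin 2) K)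
  let e : (Module.End K (Matrix (Fin 2) (Fin 2) K))ˣ ≃* Matrix.GeneralLinearGroup
      (Fin (Module.finrank K (Matrix (Fin 2) (Fin 2) K))) K :=
    Units.mapEquiv (LinearMap.toMatrixAlgEquiv b).toMulEquiv
  let ι : ↥(subA K R) ≃* G2 K := (MonoidHom.ofInjective (cA_inj (K := K) (R := R))).symm
  let fA : ↥(subA K R) →* Matrix.GeneralLinearGroup
      (Fin (Module.finrank K (Matrix (Fin 2) (Fin 2) K))) K :=
    e.toMonoidHom.comp ((MonoidHom.toHomUnits (adj0 K)).comp ι.toMonoidHom)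
  have hfA : ∀ a : ↥(subA K R), fA a = 1 ↔ (a : G2 R) ∈ subZ K R := by
    intro a
    obtain ⟨x, rfl⟩ := ι.symm.surjective a
    have h1 : fA (ι.symm x) = e (MonoidHom.toHomUnits (adj0 K) x) := by
      change e (MonoidHom.toHomUnits (adj0 K) (ι (ι.symm x))) = _
      rw [MulEquiv.apply_symm_apply]
    have h2 : ((ι.symm x : ↥(subA K R)) : G2 R) = cA K R x := rfl
    rw [h1, h2, map_eq_one_iff e e.injective]
    have h3 : MonoidHom.toHomUnits (adj0 K) x = 1 ↔ adj0 K x = 1 := by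
      rw [← Units.val_inj]
      rfl
    rw [h3, adj0_eq_one]
    constructor
    · rintro ⟨k, rfl⟩
      exact ⟨k, (cA_scal k).symm⟩
    · rintro ⟨k, hk⟩
      rw [← cA_scal] at hk
      exact ⟨k, cA_inj hk⟩
  -- the homomorphism on `B`
  have hN : ((subZ K R).subgroupOf (subB K R)).Normal := by
    refine ⟨fun n hn g => ?_⟩
    rw [Subgroup.mem_subgroupOf] at hn ⊢
    have h1 := Z_central _ hn (g : G2 R)⁻¹
    have h2 : ((g * n * g⁻¹ : ↥(subB K R)) : G2 R) = n := by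
      rw [Subgroup.coe_mul, Subgroup.coe_mul, Subgroup.coe_inv, mul_assoc, h1, mul_inv_cancel_left]
    rw [h2]
    exact hn
  refine pair_closed hC hAc hS (levelPair h) Z_le_A Z_le_B Z_central (core h) hA hB fA hfA (hK _)
    (QuotientGroup.mk' ((subZ K R).subgroupOf (subB K R))) (fun x => ?_) (hS _ ?_)
  · change (QuotientGroup.mk x : ↥(subB K R) ⧸ (subZ K R).subgroupOf (subB K R)) = 1 ↔ _
    rw [QuotientGroup.eq_one_iff, Subgroup.mem_subgroupOf]
  · infer_instance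

end Pool.Agent.U293.GE
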