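import Pool.Agent.U293.GE.Main

/-!
# Linear groups over algebraic extensions of the prime fields, and the Euclidean algorithm
-/

set_option autoImplicit false

namespace Pool.Agent.U293.GE

open Pool.Agent.Y110.FJ (ClosedE)
open Pool.Agent.N509.TX (AcylF of_fg)
open Pool.Agent.R941.FJ (C_equiv C_le)

variable {C : ∀ (G : Type) [Group G], Prop}

theorem C_fin (hC : ClosedE C) (G : Type) [Group G] [Finite G] : C G := by
  refine hC.base.finiteIndex G ⊥ inferInstance ?_
  exact hC.base.of_injective _ _ (1 : (⊥ : Subgroup G) →* Multiplicative ℤ)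
    (fun x y _ => Subsingleton.elim x y) hC.base.int

section

variable {F K : Type} [Field F] [Field K] [Algebra F K]

/-- `GL_n(k) → GL_n(K)` -/
noncomputable def glMap (k : IntermediateField F K) (n : ℕ) :
    Matrix.GeneralLinearGroup (Fin n) k →* Matrix.GeneralLinearGroup (Fin n) K :=
  Units.map ((algebraMap k K).mapMatrix (m := Fin n)).toMonoidHom

theorem glMap_apply (k : IntermediateField F K) (n : ℕ) (g : Matrix.GeneralLinearGroup (Fin n) k)
    (i j : Fin n) : (glMap k n g : Matrix (Fin n) (Fin n) K) i j =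
      ((g : Matrix (Fin n) (Fin n) k) i j : K) := rfl

theorem glMap_inj (k : IntermediateField F K) (n : ℕ) : Function.Injective (glMap k n) := by
  intro a b hab
  apply Units.ext
  ext i j
  rw [← glMap_apply, ← glMap_apply, hab]

theorem mem_range_glMap (k : IntermediateField F K) (n : ℕ)
    (g : Matrix.GeneralLinearGroup (Fin n) K)
    (h1 : ∀ i j, (g : Matrix (Fin n) (Fin n) K) i j ∈ k)
    (h2 : ∀ i j, ((g⁻¹ : Matrix.GeneralLinearGroup (Fin n) K) : Matrix (Fin n) (Fin n) K) i j ∈ k) :
    g ∈ (glMap k n).range := by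
  let M : Matrix (Fin n) (Fin n) k := fun i j => ⟨_, h1 i j⟩
  let M' : Matrix (Fin n) (Fin n) k := fun i j => ⟨_, h2 i j⟩
  have e : ∀ A B : Matrix (Fin n) (Fin n) k,
      A.map (algebraMap k K) * B.map (algebraMap k K) = 1 → A * B = 1 := by
    intro A B hAB
    rw [← Matrix.map_mul] at hAB
    apply Matrix.map_injective (algebraMap k K).injective
    exact hAB.trans (Matrix.map_one _ (map_zero _) (map_one _)).symm
  refine ⟨⟨M, M', e M M' ?_, e M' M ?_⟩, ?_⟩
  · exact g.mul_inv
  · exact g.inv_mul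
  · apply Units.ext
    rfl

/-- the reduction to finitely generated subfields -/
theorem GL_of_sub (hC : ClosedE C) (n : ℕ)
    (h : ∀ S : Finset K, ∃ k : IntermediateField F K, (S : Set K) ⊆ k ∧
      C (Matrix.GeneralLinearGroup (Fin n) k)) : C (Matrix.GeneralLinearGroup (Fin n) K) := by
  classical
  refine of_fg hC fun H hH => ?_
  obtain ⟨T, hT⟩ := (Group.fg_iff_subgroup_fg _).1 hH
  let ent : Matrix.GeneralLinearGroup (Fin n) K → Finset K := fun g =>
    (Finset.univ : Finset (Fin n × Fin n)).image (fun p => (g : Matrix (Fin n) (Fin n) K) p.1 p.2) ∪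
    (Finset.univ : Finset (Fin n × Fin n)).image
      (fun p => ((g⁻¹ : Matrix.GeneralLinearGroup (Fin n) K) : Matrix (Fin n) (Fin n) K) p.1 p.2)
  obtain ⟨k, hk, hCk⟩ := h (T.biUnion ent)
  have hle : H ≤ (glMap k n).range := by
    rw [← hT, Subgroup.closure_le]
    intro g hg
    refine mem_range_glMap k n g (fun i j => hk ?_) (fun i j => hk ?_)
    · rw [Finset.mem_coe, Finset.mem_biUnion]
      exact ⟨g, hg, Finset.mem_union_left _ (Finset.mem_image.2 ⟨(i, j), Finset.mem_univ _, rfl⟩)⟩
    · rw [Finset.mem_coe, Finset.mem_biUnion]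
      exact ⟨g, hg, Finset.mem_union_right _ (Finset.mem_image.2 ⟨(i, j), Finset.mem_univ _, rfl⟩)⟩
  exact C_le hC.base hle
    (C_equiv hC.base (MonoidHom.ofInjective (glMap_inj k n)).symm hCk)

/-- restriction of scalars -/
theorem GL_fd (hC : ClosedE C) (hGL : ∀ n : ℕ, C (Matrix.GeneralLinearGroup (Fin n) F))
    (L : Type) [Field L] [Algebra F L] [FiniteDimensional F L] (n : ℕ) :
    C (Matrix.GeneralLinearGroup (Fin n) L) := by
  let b := Module.finBasis F (Fin n → L)
  let e : (Module.End F (Fin n → L))ˣ ≃* Matrix.GeneralLinearGroup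
      (Fin (Module.finrank F (Fin n → L))) F :=
    Units.mapEquiv (LinearMap.toMatrixAlgEquiv b).toMulEquiv
  let ρ0 : Matrix (Fin n) (Fin n) L →* Module.End F (Fin n → L) :=
    { toFun := fun M => (Matrix.mulVecLin M).restrictScalars F
      map_one' := by
        apply LinearMap.ext
        intro v
        change (1 : Matrix (Fin n) (Fin n) L).mulVec v = v
        rw [Matrix.one_mulVec]
      map_mul' := fun M N => by
        apply LinearMap.ext
        intro v
        change (M * N).mulVec v = M.mulVec (N.mulVec v)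
        rw [Matrix.mulVec_mulVec] }
  refine hC.base.of_injective _ _ (e.toMonoidHom.comp (Units.map ρ0)) ?_ (hGL _)
  intro x y hxy
  have h1 : Units.map ρ0 x = Units.map ρ0 y := e.injective hxy
  have h2 : ρ0 (x : Matrix (Fin n) (Fin n) L) = ρ0 (y : Matrix (Fin n) (Fin n) L) :=
    congrArg Units.val h1
  apply Units.ext
  ext i j
  have h3 := congrArg (fun f : Module.End F (Fin n → L) => f (Pi.single j 1) i) h2
  change (x : Matrix (Fin n) (Fin n) L).mulVec (Pi.single j 1) i =
    (y : Matrix (Fin n) (Fin n) L).mulVec (Pi.single j 1) i at h3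
  rwa [Matrix.mulVec_single_one, Matrix.mulVec_single_one] at h3

theorem GL_alg (hC : ClosedE C) (hGL : ∀ n : ℕ, C (Matrix.GeneralLinearGroup (Fin n) F))
    [Algebra.IsAlgebraic F K] (n : ℕ) : C (Matrix.GeneralLinearGroup (Fin n) K) := by
  refine GL_of_sub (F := F) hC n fun S => ?_
  refine ⟨IntermediateField.adjoin F (S : Set K), IntermediateField.subset_adjoin F _, ?_⟩
  have : Finite (S : Set K) := S.finite_toSet
  have hfd : FiniteDimensional F (IntermediateField.adjoin F (S : Set K)) :=
    IntermediateField.finiteDimensional_adjoin fun x _ =>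
      (Algebra.IsAlgebraic.isAlgebraic x).isIntegral
  exact GL_fd hC hGL _ n

end

theorem GL_p (hC : ClosedE C) (p : ℕ) [Fact p.Prime] (n : ℕ) :
    C (Matrix.GeneralLinearGroup (Fin n) (ZMod p)) := C_fin hC _

/-! ### the Euclidean algorithm -/

section euclid

open Polynomial

variable {K : Type} [Field K]

theorem isDegree_poly : IsDegree K (Polynomial.natDegree (R := K)) where
  mul r s hr hs := Polynomial.natDegree_mul hr hs
  noZero r s hr hs := mul_ne_zero hr hs
  add r s := Polynomial.natDegree_add_le r s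
  const r := by
    rw [Polynomial.natDegree_eq_zero]
    rfl

theorem isDegree_mv (σ : Type) : IsDegree K (MvPolynomial.totalDegree (R := K) (σ := σ)) where
  mul r s hr hs := MvPolynomial.totalDegree_mul_of_isDomain hr hs
  noZero r s hr hs := mul_ne_zero hr hs
  add r s := MvPolynomial.totalDegree_add r s
  const r := by
    classical
    rw [MvPolynomial.totalDegree_eq_zero_iff_eq_C]
    constructor
    · intro h
      exact ⟨_, h.symm⟩
    · rintro ⟨k, rfl⟩
      rw [MvPolynomial.algebraMap_eq, MvPolynomial.coeff_C, if_pos rfl]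

/-- `1 + q e₀₁` -/
noncomputable def el {R : Type} [Ring R] (q : R) : G2 R where
  val := !![1, q; 0, 1]
  inv := !![1, -q; 0, 1]
  val_inv := by
    rw [Matrix.mul_fin_two, Matrix.one_fin_two]
    simp
  inv_val := by
    rw [Matrix.mul_fin_two, Matrix.one_fin_two]
    simp

/-- the exchange of the basis vectors -/
noncomputable def wl (R : Type) [Ring R] : G2 R where
  val := !![0, 1; 1, 0]
  inv := !![0, 1; 1, 0]
  val_inv := by
    rw [Matrix.mul_fin_two, Matrix.one_fin_two]
    simp
  inv_val := by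
    rw [Matrix.mul_fin_two, Matrix.one_fin_two]
    simp

theorem el_mem {K R : Type} [Field K] [Ring R] [Algebra K R] (q : R) : el q ∈ subB K R := by
  refine ⟨rfl, ⟨1, one_ne_zero, ?_⟩, ⟨1, one_ne_zero, ?_⟩⟩
  · rw [map_one]
    rfl
  · rw [map_one]
    rfl

theorem wl_mem {K R : Type} [Field K] [Ring R] [Algebra K R] : wl R ∈ subA K R := by
  refine ⟨wl K, ?_⟩
  apply Units.ext
  refine ext2 ?_ ?_ ?_ ?_ <;> rw [cA_apply]
  · exact map_zero _
  · exact map_one _
  · exact map_one _
  · exact map_zero _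

theorem poly_unit {u : K[X]} (hu : IsUnit u) : ∃ k : K, k ≠ 0 ∧ u = algebraMap K K[X] k := by
  obtain ⟨k, hk, rfl⟩ := Polynomial.isUnit_iff.1 hu
  exact ⟨k, hk.ne_zero, rfl⟩

theorem euclid (g : G2 K[X]) : g ∈ subA K K[X] ⊔ subB K K[X] := by
  have key : ∀ n : ℕ, ∀ g : G2 K[X], ((g : Matrix (Fin 2) (Fin 2) K[X]) 1 0).degree < n →
      g ∈ subA K K[X] ⊔ subB K K[X] := by
    intro n
    induction n with
    | zero =>
      intro g hg
      have h0 : (g : Matrix (Fin 2) (Fin 2) K[X]) 1 0 = 0 := by
        rw [← Polynomial.degree_eq_bot, ← Nat.WithBot.lt_zero_iff]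
        exact_mod_cast hg
      apply Subgroup.mem_sup_right
      have e1 : (g : Matrix (Fin 2) (Fin 2) K[X]) *
        ((g⁻¹ : G2 K[X]) : Matrix (Fin 2) (Fin 2) K[X]) = 1 := g.mul_inv
      have e2 : ((g⁻¹ : G2 K[X]) : Matrix (Fin 2) (Fin 2) K[X]) *
        (g : Matrix (Fin 2) (Fin 2) K[X]) = 1 := g.inv_mul
      have a11 := congrFun (congrFun e1 1) 1
      have a00 := congrFun (congrFun e2 0) 0
      rw [mul2, h0, zero_mul, zero_add, Matrix.one_apply_eq] at a11
      rw [mul2, h0, mul_zero, add_zero, Matrix.one_apply_eq] at a00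
      refine ⟨h0, poly_unit (IsUnit.of_mul_eq_one_right _ a00), poly_unit (IsUnit.of_mul_eq_one _ a11)⟩
    | succ n ih =>
      intro g hg
      by_cases h0 : (g : Matrix (Fin 2) (Fin 2) K[X]) 1 0 = 0
      · refine ih g ?_
        rw [h0, Polynomial.degree_zero]
        exact WithBot.bot_lt_coe _
      · obtain ⟨q, hq⟩ : ∃ q, q = (g : Matrix (Fin 2) (Fin 2) K[X]) 1 1 /
            (g : Matrix (Fin 2) (Fin 2) K[X]) 1 0 := ⟨_, rfl⟩
        have h1 : g * el (-q) * wl K[X] ∈ subA K K[X] ⊔ subB K K[X] := by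
          refine ih _ ?_
          have e : ((g * el (-q) * wl K[X] : G2 K[X]) : Matrix (Fin 2) (Fin 2) K[X]) 1 0 =
              (g : Matrix (Fin 2) (Fin 2) K[X]) 1 1 % (g : Matrix (Fin 2) (Fin 2) K[X]) 1 0 := by
            rw [Units.val_mul, mul2, Units.val_mul, mul2, mul2]
            change ((g : Matrix (Fin 2) (Fin 2) K[X]) 1 0 * 1 +
              (g : Matrix (Fin 2) (Fin 2) K[X]) 1 1 * 0) * 0 +
              ((g : Matrix (Fin 2) (Fin 2) K[X]) 1 0 * (-q) +
              (g : Matrix (Fin 2) (Fin 2) K[X]) 1 1 * 1) * 1 = _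
            have := EuclideanDomain.div_add_mod ((g : Matrix (Fin 2) (Fin 2) K[X]) 1 1)
              ((g : Matrix (Fin 2) (Fin 2) K[X]) 1 0)
            rw [← hq] at this
            linear_combination -this
          rw [e]
          have h2 := Polynomial.degree_mod_lt ((g : Matrix (Fin 2) (Fin 2) K[X]) 1 1) h0
          have h3 : ((g : Matrix (Fin 2) (Fin 2) K[X]) 1 0).degree ≤ (n : WithBot ℕ) := by
            rw [Polynomial.degree_eq_natDegree h0, Nat.cast_lt] at hg
            rw [Polynomial.degree_eq_natDegree h0, Nat.cast_le]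
            omega
          exact lt_of_lt_of_le h2 h3
        have h2 : g = g * el (-q) * wl K[X] * (wl K[X])⁻¹ * (el (-q))⁻¹ := by group
        rw [h2]
        refine mul_mem (mul_mem h1 (inv_mem ?_)) (inv_mem ?_)
        · exact Subgroup.mem_sup_left wl_mem
        · exact Subgroup.mem_sup_right (el_mem _)
  exact key _ g (lt_of_le_of_lt Polynomial.degree_le_natDegree
    (Nat.cast_lt.2 (Nat.lt_succ_self _)))

end euclid

end Pool.Agent.U293.GE
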