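import Mathlib

/-!
# The tree of a group generated by two subgroups with two degree functions

`G` is a group, `A`, `B` are subgroups and `d0`, `d1` are functions from `G` to the natural numbers (the
degrees of the second and of the first column, say). Under the conditions `LevelPair` the cosets of
`A` and of `B` in the group generated by them are the vertices of a tree.
-/

set_option autoImplicit false

namespace Pool.Agent.U293.GE

/-- a graph with levels such that each vertex except one has exactly one lower neighbour, and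
neighbours have different levels, is a tree -/
theorem isTree_of_level {V : Type} (T : SimpleGraph V) (l : V → ℕ) (r : V)
    (h1 : ∀ u v, T.Adj u v → l u ≠ l v)
    (h2 : ∀ v, v ≠ r → ∃ u, T.Adj v u ∧ l u < l v)
    (h3 : ∀ v u u', T.Adj v u → T.Adj v u' → l u < l v → l u' < l v → u = u') : T.IsTree := by
  classical
  refine ⟨?_, ?_⟩
  · have hr : ∀ n v, l v = n → T.Reachable v r := by
      intro n
      induction n using Nat.strong_induction_on with
      | _ n ih =>
        intro v hv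
        by_cases hvr : v = r
        · rw [hvr]
        · obtain ⟨u, hu, hlt⟩ := h2 v hvr
          exact hu.reachable.trans (ih _ (by omega) u rfl)
    exact { preconnected := fun u v => (hr _ u rfl).trans (hr _ v rfl).symm, nonempty := ⟨r⟩ }
  · intro v c hc
    obtain ⟨w, hw, hmax⟩ := c.support.toFinset.exists_max_image l
      ⟨v, by simp⟩
    have hw' : w ∈ c.support := by simpa using hw
    have hc' := hc.rotate hw'
    obtain ⟨c', hcc⟩ : ∃ c' : T.Walk w w, c' = c.rotate w hw' := ⟨_, rfl⟩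
    rw [← hcc] at hc'
    have hsub : ∀ x ∈ c'.support, l x ≤ l w := by
      intro x hx
      apply hmax
      rw [List.mem_toFinset]
      rw [hcc] at hx
      exact (SimpleGraph.Walk.mem_support_rotate_iff ..).1 hx
    have hn : ¬ c'.Nil := hc'.not_nil
    have a1 := c'.adj_snd hn
    have a2 := c'.adj_penultimate hn
    have l1 : l c'.snd < l w :=
      lt_of_le_of_ne (hsub _ (c'.getVert_mem_support _)) (h1 _ _ a1).symm
    have l2 : l c'.penultimate < l w :=
      lt_of_le_of_ne (hsub _ (c'.getVert_mem_support _)) (h1 _ _ a2)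
    exact hc'.snd_ne_penultimate (h3 _ _ _ a1 a2.symm l1 l2)

variable {G : Type} [Group G]

/-- the conditions on the degree functions -/
structure LevelPair (A B : Subgroup G) (d0 d1 : G → ℕ) : Prop where
  mxA : ∀ g a, a ∈ A → max (d0 (g * a)) (d1 (g * a)) = max (d0 g) (d1 g)
  d1B : ∀ g b, b ∈ B → d1 (g * b) = d1 g
  baseA : ∀ g ∈ A, d0 g ≤ d1 g
  low : ∀ g a a', a ∈ A → a' ∈ A → d1 (g * a) < max (d0 g) (d1 g) →
    d1 (g * a') < max (d0 g) (d1 g) → a⁻¹ * a' ∈ B
  big : ∀ g b, b ∈ B → b ∉ A → d0 g ≤ d1 g → d1 g < d0 (g * b)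

variable {A B : Subgroup G} {d0 d1 : G → ℕ}

/-- the elements which are reduced to `A` -/
inductive Red (A B : Subgroup G) (d0 d1 : G → ℕ) : Bool → G → Prop
  | base (g : G) : g ∈ A → Red A B d0 d1 false g
  | stA (g a : G) : a ∈ A → d1 (g * a) < max (d0 g) (d1 g) → Red A B d0 d1 true (g * a) →
      Red A B d0 d1 false g
  | stB (g b : G) : b ∈ B → d0 (g * b) ≤ d1 g → Red A B d0 d1 false (g * b) →
      Red A B d0 d1 true g

theorem redA (h : LevelPair A B d0 d1) {g a : G} (hg : Red A B d0 d1 false g) (ha : a ∈ A) :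
    Red A B d0 d1 false (g * a) := by
  cases hg with
  | base _ hg => exact Red.base _ (mul_mem hg ha)
  | stA _ a0 ha0 hlt hr =>
    have e : g * a * (a⁻¹ * a0) = g * a0 := by group
    refine Red.stA _ (a⁻¹ * a0) (mul_mem (inv_mem ha) ha0) ?_ ?_
    · rw [e, h.mxA g a ha]
      exact hlt
    · rw [e]
      exact hr

theorem redB (h : LevelPair A B d0 d1) {g b : G} (hg : Red A B d0 d1 true g) (hb : b ∈ B) :
    Red A B d0 d1 true (g * b) := by
  cases hg with
  | stB _ b0 hb0 hle hr =>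
    have e : g * b * (b⁻¹ * b0) = g * b0 := by group
    refine Red.stB _ (b⁻¹ * b0) (mul_mem (inv_mem hb) hb0) ?_ ?_
    · rw [e, h.d1B g b hb]
      exact hle
    · rw [e]
      exact hr

theorem redFT (h : LevelPair A B d0 d1) {g : G} (hg : Red A B d0 d1 false g) :
    Red A B d0 d1 true g := by
  have hg0 := hg
  cases hg with
  | base _ hg =>
    refine Red.stB _ 1 (one_mem _) ?_ (by rwa [mul_one])
    rw [mul_one]
    exact h.baseA g hg
  | stA _ a0 ha0 hlt hr =>
    by_cases hb : a0 ∈ B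
    · have := redB h hr (inv_mem hb)
      rwa [mul_inv_cancel_right] at this
    · have h1 : ¬ d1 g < max (d0 g) (d1 g) := by
        intro hlt1
        have h2 := h.low g 1 a0 (one_mem _) ha0 (by rwa [mul_one]) hlt
        rw [inv_one, one_mul] at h2
        exact hb h2
      refine Red.stB _ 1 (one_mem _) ?_ (by rwa [mul_one])
      rw [mul_one]
      exact (le_max_left _ _).trans (not_lt.1 h1)

theorem redTF (h : LevelPair A B d0 d1) {g : G} (hg : Red A B d0 d1 true g) :
    Red A B d0 d1 false g := by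
  have hg0 := hg
  cases hg with
  | stB _ b0 hb0 hle hr =>
    by_cases ha : b0 ∈ A
    · have := redA h hr (inv_mem ha)
      rwa [mul_inv_cancel_right] at this
    · have h1 : d0 (g * b0) ≤ d1 (g * b0) := by
        rw [h.d1B g b0 hb0]
        exact hle
      have h2 := h.big (g * b0) b0⁻¹ (inv_mem hb0) (fun hh => ha (by simpa using inv_mem hh)) h1
      rw [mul_inv_cancel_right, h.d1B g b0 hb0] at h2
      refine Red.stA _ 1 (one_mem _) ?_ (by rwa [mul_one])
      rw [mul_one]
      exact lt_of_lt_of_le h2 (le_max_left _ _)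

theorem red_all (h : LevelPair A B d0 d1) {g : G} (hg : g ∈ A ⊔ B) : Red A B d0 d1 false g := by
  let S : Subgroup G :=
    { carrier := {x | ∀ y, Red A B d0 d1 false y ↔ Red A B d0 d1 false (y * x)}
      one_mem' := fun y => by rw [mul_one]
      mul_mem' := fun {a b} ha hb y => by
        rw [ha y, hb (y * a), mul_assoc]
      inv_mem' := fun {a} ha y => by
        rw [ha (y * a⁻¹), inv_mul_cancel_right] }
  have hA : A ≤ S := by
    intro a ha y
    refine ⟨fun hy => redA h hy ha, fun hy => ?_⟩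
    have := redA h hy (inv_mem ha)
    rwa [mul_inv_cancel_right] at this
  have hB : B ≤ S := by
    intro b hb y
    refine ⟨fun hy => redTF h (redB h (redFT h hy) hb), fun hy => ?_⟩
    have := redTF h (redB h (redFT h hy) (inv_mem hb))
    rwa [mul_inv_cancel_right] at this
  have h1 : g ∈ S := (sup_le hA hB) hg
  have h2 := (h1 1).1 (Red.base 1 (one_mem _))
  rwa [one_mul] at h2

/-- the group generated by `A` and `B` -/
abbrev GG (A B : Subgroup G) : Type := ↥(A ⊔ B)

/-- the vertices of the tree: the cosets of `A` and of `B` -/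
abbrev Vt (A B : Subgroup G) : Type :=
  (GG A B ⧸ A.subgroupOf (A ⊔ B)) ⊕ (GG A B ⧸ B.subgroupOf (A ⊔ B))

/-- the vertex `g A` -/
def vA (A B : Subgroup G) (g : GG A B) : Vt A B := Sum.inl (QuotientGroup.mk g)

/-- the vertex `g B` -/
def vB (A B : Subgroup G) (g : GG A B) : Vt A B := Sum.inr (QuotientGroup.mk g)

/-- the edges join `g A` and `g B` -/
def tr (A B : Subgroup G) : SimpleGraph (Vt A B) where
  Adj u v := ∃ g : GG A B, (u = vA A B g ∧ v = vB A B g) ∨ (u = vB A B g ∧ v = vA A B g)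
  symm := ⟨by
    rintro u v ⟨g, h | h⟩
    · exact ⟨g, Or.inr ⟨h.2, h.1⟩⟩
    · exact ⟨g, Or.inl ⟨h.2, h.1⟩⟩⟩
  loopless := ⟨by
    rintro u ⟨g, h | h⟩
    · have := h.1.symm.trans h.2
      simp [vA, vB] at this
    · have := h.1.symm.trans h.2
      simp [vA, vB] at this⟩

theorem vA_eq {g h : GG A B} : vA A B g = vA A B h ↔ (g : G)⁻¹ * h ∈ A := by
  unfold vA
  rw [Sum.inl.injEq, QuotientGroup.eq, Subgroup.mem_subgroupOf]
  rfl

theorem vB_eq {g h : GG A B} : vB A B g = vB A B h ↔ (g : G)⁻¹ * h ∈ B := by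
  unfold vB
  rw [Sum.inr.injEq, QuotientGroup.eq, Subgroup.mem_subgroupOf]
  rfl

theorem vA_ne_vB {g h : GG A B} : vA A B g ≠ vB A B h := by simp [vA, vB]

/-- every neighbour of `g A` is `g a B` -/
theorem adjA {g : GG A B} {w : Vt A B} (h : (tr A B).Adj (vA A B g) w) :
    ∃ a : GG A B, (a : G) ∈ A ∧ w = vB A B (g * a) := by
  obtain ⟨x, h | h⟩ := h
  · refine ⟨g⁻¹ * x, ?_, ?_⟩
    · exact vA_eq.1 h.1
    · rw [mul_inv_cancel_left]
      exact h.2
  · exact absurd h.1 vA_ne_vB

/-- every neighbour of `g B` is `g b A` -/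
theorem adjB {g : GG A B} {w : Vt A B} (h : (tr A B).Adj (vB A B g) w) :
    ∃ b : GG A B, (b : G) ∈ B ∧ w = vA A B (g * b) := by
  obtain ⟨x, h | h⟩ := h
  · exact absurd h.1.symm vA_ne_vB
  · refine ⟨g⁻¹ * x, ?_, ?_⟩
    · exact vB_eq.1 h.1
    · rw [mul_inv_cancel_left]
      exact h.2

/-- the level of a vertex -/
noncomputable def lev (A B : Subgroup G) (d0 d1 : G → ℕ) : Vt A B → ℕ
  | Sum.inl q => 2 * max (d0 (q.out : G)) (d1 (q.out : G))
  | Sum.inr q => 2 * d1 (q.out : G) + 1

theorem lev_A (h : LevelPair A B d0 d1) (g : GG A B) :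
    lev A B d0 d1 (vA A B g) = 2 * max (d0 (g : G)) (d1 (g : G)) := by
  have h1 : (g : G)⁻¹ * ((QuotientGroup.mk g : GG A B ⧸ A.subgroupOf (A ⊔ B)).out : G) ∈ A := by
    have : (QuotientGroup.mk g : GG A B ⧸ A.subgroupOf (A ⊔ B)) = QuotientGroup.mk
        ((QuotientGroup.mk g : GG A B ⧸ A.subgroupOf (A ⊔ B)).out) := (Quotient.out_eq' _).symm
    rw [QuotientGroup.eq, Subgroup.mem_subgroupOf] at this
    exact this
  have h2 := h.mxA (g : G) _ h1
  rw [mul_inv_cancel_left] at h2
  unfold vA lev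
  simp only
  rw [h2]

theorem lev_B (h : LevelPair A B d0 d1) (g : GG A B) :
    lev A B d0 d1 (vB A B g) = 2 * d1 (g : G) + 1 := by
  have h1 : (g : G)⁻¹ * ((QuotientGroup.mk g : GG A B ⧸ B.subgroupOf (A ⊔ B)).out : G) ∈ B := by
    have : (QuotientGroup.mk g : GG A B ⧸ B.subgroupOf (A ⊔ B)) = QuotientGroup.mk
        ((QuotientGroup.mk g : GG A B ⧸ B.subgroupOf (A ⊔ B)).out) := (Quotient.out_eq' _).symm
    rw [QuotientGroup.eq, Subgroup.mem_subgroupOf] at this
    exact this
  have h2 := h.d1B (g : G) _ h1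
  rw [mul_inv_cancel_left] at h2
  unfold vB lev
  simp only
  rw [h2]

theorem cases_v (u : Vt A B) : (∃ g, u = vA A B g) ∨ ∃ g, u = vB A B g := by
  rcases u with q | q
  · left
    obtain ⟨g, rfl⟩ := QuotientGroup.mk_surjective q
    exact ⟨g, rfl⟩
  · right
    obtain ⟨g, rfl⟩ := QuotientGroup.mk_surjective q
    exact ⟨g, rfl⟩

theorem tr_tree (h : LevelPair A B d0 d1) : (tr A B).IsTree := by
  refine isTree_of_level _ (lev A B d0 d1) (vA A B 1) ?_ ?_ ?_
  · rintro u v ⟨g, ⟨rfl, rfl⟩ | ⟨rfl, rfl⟩⟩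
    · rw [lev_A h, lev_B h]
      omega
    · rw [lev_A h, lev_B h]
      omega
  · intro v hv
    rcases cases_v v with ⟨g, rfl⟩ | ⟨g, rfl⟩
    · have hr := red_all h g.2
      cases hr with
      | base _ hg =>
        exfalso
        apply hv
        rw [vA_eq]
        have := inv_mem hg
        simpa using this
      | stA _ a ha hlt _ =>
        have ha' : a ∈ A ⊔ B := Subgroup.mem_sup_left ha
        refine ⟨vB A B (g * ⟨a, ha'⟩), ⟨g * ⟨a, ha'⟩, Or.inl ⟨?_, rfl⟩⟩, ?_⟩
        · rw [vA_eq]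
          simpa using ha
        · rw [lev_A h, lev_B h]
          change 2 * d1 ((g : G) * a) + 1 < _
          omega
    · have hr := redFT h (red_all h g.2)
      cases hr with
      | stB _ b hb hle _ =>
        have hb' : b ∈ A ⊔ B := Subgroup.mem_sup_right hb
        refine ⟨vA A B (g * ⟨b, hb'⟩), ⟨g * ⟨b, hb'⟩, Or.inr ⟨?_, rfl⟩⟩, ?_⟩
        · rw [vB_eq]
          simpa using hb
        · rw [lev_A h, lev_B h]
          have h3 := h.d1B (g : G) b hb
          change 2 * max (d0 ((g : G) * b)) (d1 ((g : G) * b)) < _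
          omega
  · intro v u u' hu hu' hl hl'
    rcases cases_v v with ⟨g, rfl⟩ | ⟨g, rfl⟩
    · obtain ⟨a, ha, rfl⟩ := adjA hu
      obtain ⟨a', ha', rfl⟩ := adjA hu'
      rw [lev_A h, lev_B h] at hl hl'
      have h1 : d1 ((g : G) * a) < max (d0 (g : G)) (d1 (g : G)) := by
        change 2 * d1 ((g : G) * a) + 1 < _ at hl
        omega
      have h2 : d1 ((g : G) * a') < max (d0 (g : G)) (d1 (g : G)) := by
        change 2 * d1 ((g : G) * a') + 1 < _ at hl'
        omega
      have h4 := h.low (g : G) a a' ha ha' h1 h2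
      rw [vB_eq]
      have e : ((g * a : GG A B) : G)⁻¹ * ((g * a' : GG A B) : G) = (a : G)⁻¹ * (a' : G) := by
        rw [Subgroup.coe_mul, Subgroup.coe_mul]
        group
      rw [e]
      exact h4
    · obtain ⟨b, hb, rfl⟩ := adjB hu
      obtain ⟨b', hb', rfl⟩ := adjB hu'
      rw [lev_A h, lev_B h] at hl hl'
      have h1 : max (d0 ((g : G) * (b : G))) (d1 ((g : G) * (b : G))) ≤ d1 (g : G) := by
        change 2 * max (d0 ((g : G) * (b : G))) (d1 ((g : G) * (b : G))) < _ at hl
        omega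
      have h2 : max (d0 ((g : G) * (b' : G))) (d1 ((g : G) * (b' : G))) ≤ d1 (g : G) := by
        change 2 * max (d0 ((g : G) * (b' : G))) (d1 ((g : G) * (b' : G))) < _ at hl'
        omega
      rw [vA_eq]
      have e : ((g * b : GG A B) : G)⁻¹ * ((g * b' : GG A B) : G) = (b : G)⁻¹ * (b' : G) := by
        rw [Subgroup.coe_mul, Subgroup.coe_mul]
        group
      rw [e]
      have hbb : (b : G)⁻¹ * (b' : G) ∈ B := mul_mem (inv_mem hb) hb'
      by_contra hna
      have h3 := h.big ((g : G) * (b : G)) _ hbb hna ?_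
      · have e2 : (g : G) * (b : G) * ((b : G)⁻¹ * (b' : G)) = (g : G) * (b' : G) := by
          group
        rw [e2, h.d1B _ _ hb] at h3
        exact absurd ((le_max_left _ _).trans h2) (not_le.2 h3)
      · rw [h.d1B _ _ hb]
        exact (le_max_left _ _).trans h1

theorem smul_vA (g x : GG A B) : g • vA A B x = vA A B (g * x) := rfl

theorem smul_vB (g x : GG A B) : g • vB A B x = vB A B (g * x) := rfl

theorem tr_act (g : GG A B) (u v : Vt A B) (h : (tr A B).Adj u v) :
    (tr A B).Adj (g • u) (g • v) := by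
  obtain ⟨x, ⟨rfl, rfl⟩ | ⟨rfl, rfl⟩⟩ := h
  · exact ⟨g * x, Or.inl ⟨rfl, rfl⟩⟩
  · exact ⟨g * x, Or.inr ⟨rfl, rfl⟩⟩

theorem tr_inv (g : GG A B) (u v : Vt A B) (h : (tr A B).Adj u v) :
    ¬ (g • u = v ∧ g • v = u) := by
  obtain ⟨x, ⟨rfl, rfl⟩ | ⟨rfl, rfl⟩⟩ := h
  · rintro ⟨h1, -⟩
    exact vA_ne_vB h1
  · rintro ⟨h1, -⟩
    exact vA_ne_vB h1.symm

theorem fixA {g x : GG A B} (h : g • vA A B x = vA A B x) :
    (x : G)⁻¹ * (g : G) * (x : G) ∈ A := by
  rw [smul_vA] at h
  have := inv_mem (vA_eq.1 h)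
  have e : (((g * x : GG A B) : G)⁻¹ * (x : G))⁻¹ = (x : G)⁻¹ * (g : G) * (x : G) := by
    rw [Subgroup.coe_mul]
    group
  rwa [e] at this

theorem fixB {g x : GG A B} (h : g • vB A B x = vB A B x) :
    (x : G)⁻¹ * (g : G) * (x : G) ∈ B := by
  rw [smul_vB] at h
  have := inv_mem (vB_eq.1 h)
  have e : (((g * x : GG A B) : G)⁻¹ * (x : G))⁻¹ = (x : G)⁻¹ * (g : G) * (x : G) := by
    rw [Subgroup.coe_mul]
    group
  rwa [e] at this

/-- the next vertex after `g B, g A` -/
theorem nextA {g : GG A B} {w : Vt A B} (h : (tr A B).Adj (vA A B g) w) (hw : w ≠ vB A B g) :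
    ∃ a : GG A B, (a : G) ∈ A ∧ (a : G) ∉ B ∧ w = vB A B (g * a) ∧
      vA A B g = vA A B (g * a) := by
  obtain ⟨a, ha, rfl⟩ := adjA h
  refine ⟨a, ha, ?_, rfl, ?_⟩
  · intro hb
    apply hw
    rw [vB_eq]
    have := inv_mem hb
    simpa using this
  · rw [vA_eq]
    simpa using ha

/-- the next vertex after `g A, g B` -/
theorem nextB {g : GG A B} {w : Vt A B} (h : (tr A B).Adj (vB A B g) w) (hw : w ≠ vA A B g) :
    ∃ b : GG A B, (b : G) ∈ B ∧ (b : G) ∉ A ∧ w = vA A B (g * b) ∧
      vB A B g = vB A B (g * b) := by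
  obtain ⟨b, hb, rfl⟩ := adjB h
  refine ⟨b, hb, ?_, rfl, ?_⟩
  · intro ha
    apply hw
    rw [vA_eq]
    have := inv_mem ha
    simpa using this
  · rw [vB_eq]
    simpa using hb

end Pool.Agent.U293.GE
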