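import Pool.Agent.U293.GE.Abs
import Pool.Agent.N509.TX.Fg
import Pool.Agent.Y529.FJ.Ext

/-!
# Membership in the class of groups: the case of an acylindrical action modulo the centre
-/

set_option autoImplicit false

namespace Pool.Agent.U293.GE

open Pool.Agent.Y110.FJ (ClosedE)
open Pool.Agent.N509.TX (AcylF of_fg C_stab)
open Pool.Agent.R941.FJ (C_equiv C_le mem_sup_normal)

variable {C : ∀ (G : Type) [Group G], Prop}

/-- a quotient of `S` with the same kernel as a homomorphism to a group in the class -/
theorem of_ker (hC : ClosedE C) {S T P : Type} [Group S] [Group T] [Group P] (σ : S →* T)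
    (hσ : Function.Surjective σ) (f : S →* P) (hk : ∀ x, f x = 1 ↔ σ x = 1) (hP : C P) : C T := by
  have hle : σ.ker ≤ f.ker := by
    intro x hx
    exact (hk x).2 hx
  let F : T →* P := (σ.liftOfSurjective hσ) ⟨f, hle⟩
  have hF : ∀ x, F (σ x) = f x := fun x =>
    MonoidHom.liftOfRightInverse_comp_apply _ _ _ ⟨f, hle⟩ x
  refine hC.base.of_injective _ _ F ?_ hP
  rw [injective_iff_map_eq_one]
  intro t ht
  obtain ⟨x, rfl⟩ := hσ t
  rw [hF] at ht
  exact (hk x).1 ht

variable {G : Type} [Group G] {A B : Subgroup G} {d0 d1 : G → ℕ}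

/-- the condition on the stabilizers of paths -/
def Core (A B Z : Subgroup G) : Prop :=
  ∀ t0 t s a b : G, t0 ∈ A ⊓ B → t ∈ A ⊓ B → s ∈ A ⊓ B → a ∈ A → a ∉ B → b ∈ B → b ∉ A →
    a * t = t0 * a → b * s = t * b → t ∈ Z

/-- the pointwise stabilizers of paths `v0, v1, v2, v3` starting at a coset of `B` -/
theorem three {Z : Subgroup G} (hcore : Core A B Z) (hZ : ∀ z ∈ Z, ∀ x : G, z * x = x * z)
    {v0 v1 v2 v3 : Vt A B} (hv0 : ∃ g, v0 = vB A B g) (h01 : (tr A B).Adj v0 v1)
    (h12 : (tr A B).Adj v1 v2) (h23 : (tr A B).Adj v2 v3) (n02 : v0 ≠ v2) (n13 : v1 ≠ v3)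
    (g : GG A B) (g0 : g • v0 = v0) (g1 : g • v1 = v1) (g2 : g • v2 = v2) (g3 : g • v3 = v3) :
    (g : G) ∈ Z := by
  obtain ⟨y0, h0⟩ := hv0
  rw [h0] at h01
  obtain ⟨b0, hb0, h1⟩ := adjB h01
  obtain ⟨x0, hx0⟩ : ∃ x0, x0 = y0 * b0 := ⟨_, rfl⟩
  rw [← hx0] at h1
  have h0' : v0 = vB A B x0 := by
    rw [h0, hx0, vB_eq]
    simpa using hb0
  rw [h1] at h12
  obtain ⟨a, ha, ha', h2, k1⟩ := nextA h12 (by rw [← h0']; exact n02.symm)
  rw [h2] at h23
  obtain ⟨b, hb, hb', h3, k2⟩ := nextB h23 (by rw [← k1, ← h1]; exact n13.symm)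
  have mem : ∀ x : GG A B, g • vA A B x = vA A B x → g • vB A B x = vB A B x →
      (x : G)⁻¹ * (g : G) * (x : G) ∈ A ⊓ B := fun x h h' => ⟨fixA h, fixB h'⟩
  have m0 := mem x0 (by rw [← h1]; exact g1) (by rw [← h0']; exact g0)
  have m1 := mem (x0 * a) (by rw [← k1, ← h1]; exact g1) (by rw [← h2]; exact g2)
  have m2 := mem (x0 * a * b) (by rw [← h3]; exact g3) (by rw [← k2, ← h2]; exact g2)
  have h5 := hcore _ _ _ (a : G) (b : G) m0 m1 m2 ha ha' hb hb'
    (by simp only [Subgroup.coe_mul]; group) (by simp only [Subgroup.coe_mul]; group)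
  obtain ⟨x, hx⟩ : ∃ x : GG A B, x = x0 * a := ⟨_, rfl⟩
  rw [← hx] at h5
  have h6 : (g : G) = (x : G)⁻¹ * (g : G) * (x : G) := by
    have := hZ _ h5 (x : G)
    have h7 : (x : G) * ((x : G)⁻¹ * (g : G) * (x : G)) = (g : G) * (x : G) := by group
    rw [← this] at h7
    exact (mul_right_cancel h7).symm
  rw [h6]
  exact h5

theorem path_three {Z : Subgroup G} (hcore : Core A B Z) (hZ : ∀ z ∈ Z, ∀ x : G, z * x = x * z)
    {u w : Vt A B} (p : (tr A B).Walk u w) (hp : p.IsPath) (hlen : 3 ≤ p.length)
    (g : GG A B) (hg : ∀ x ∈ p.support, g • x = x) : (g : G) ∈ Z := by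
  have hinj : ∀ i ≤ p.length, ∀ j ≤ p.length, p.getVert i = p.getVert j → i = j := by
    intro i hi j hj hij
    exact hp.getVert_injOn hi hj hij
  have hadj : ∀ i, i < p.length → (tr A B).Adj (p.getVert i) (p.getVert (i + 1)) :=
    fun i hi => p.adj_getVert_succ hi
  have fx : ∀ i, g • p.getVert i = p.getVert i := fun i => hg _ (p.getVert_mem_support _)
  rcases cases_v (p.getVert 0) with ⟨y, hy⟩ | ⟨y, hy⟩
  · have h1 := hadj 0 (by omega)
    rw [hy] at h1
    obtain ⟨a, ha, h2⟩ := adjA h1
    have h3 := hadj 1 (by omega)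
    rw [zero_add] at h2
    rw [h2] at h3
    obtain ⟨b, hb, h4⟩ := adjB h3
    have h5 := hadj 2 (by omega)
    simp only [Nat.reduceAdd] at h4 h5
    rw [h4] at h5
    obtain ⟨a', ha', h6⟩ := adjA h5
    refine three hcore hZ ⟨_, h6⟩ (hadj 2 (by omega)).symm (hadj 1 (by omega)).symm
      (hadj 0 (by omega)).symm (fun hh => ?_) (fun hh => ?_) g (fx _) (fx _) (fx _) (fx _)
    · have := hinj _ (by omega) _ (by omega) hh
      omega
    · have := hinj _ (by omega) _ (by omega) hh
      omega
  · refine three hcore hZ ⟨_, hy⟩ (hadj 0 (by omega)) (hadj 1 (by omega))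
      (hadj 2 (by omega)) (fun hh => ?_) (fun hh => ?_) g (fx _) (fx _) (fx _) (fx _)
    · have := hinj _ (by omega) _ (by omega) hh
      omega
    · have := hinj _ (by omega) _ (by omega) hh
      omega

/-- the action as a homomorphism -/
noncomputable def actHom (A B : Subgroup G) : GG A B →* Equiv.Perm (Vt A B) :=
  MulAction.toPermHom (GG A B) (Vt A B)

theorem actHom_apply (g : GG A B) (v : Vt A B) : actHom A B g v = g • v := rfl

/-- **The theorem for the group generated by `A` and `B`.** -/
theorem pair_closed (hC : ClosedE C) (hAc : AcylF C)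
    (hS : ∀ (G : Type) [Group G], Group.IsSolvable G → C G) (h : LevelPair A B d0 d1)
    {Z : Subgroup G} (hZA : Z ≤ A) (hZB : Z ≤ B) (hZ : ∀ z ∈ Z, ∀ x : G, z * x = x * z)
    (hcore : Core A B Z) (hA : C A) (hB : C B)
    {P Q : Type} [Group P] [Group Q] (fA : A →* P) (hfA : ∀ a, fA a = 1 ↔ (a : G) ∈ Z) (hP : C P)
    (fB : B →* Q) (hfB : ∀ b, fB b = 1 ↔ (b : G) ∈ Z) (hQ : C Q) : C (GG A B) := by
  classical
  by_cases hAB : A ≤ B
  · exact C_le hC.base (le_of_eq (sup_eq_right.2 hAB)) hB
  by_cases hBA : B ≤ A
  · exact C_le hC.base (le_of_eq (sup_eq_left.2 hBA)) hA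
  obtain ⟨a, ha, ha'⟩ := SetLike.not_le_iff_exists.1 hAB
  obtain ⟨b, hb, hb'⟩ := SetLike.not_le_iff_exists.1 hBA
  -- the kernel of the action
  have hker : ∀ g : GG A B, actHom A B g = 1 ↔ (g : G) ∈ Z := by
    intro g
    constructor
    · intro hg
      have hg' : ∀ v : Vt A B, g • v = v := fun v => by
        rw [← actHom_apply, hg]
        rfl
      let a1 : GG A B := ⟨a, Subgroup.mem_sup_left ha⟩
      let b1 : GG A B := ⟨b, Subgroup.mem_sup_right hb⟩
      have h0 := fixA (hg' (vA A B a1⁻¹))
      have h0' := fixB (hg' (vB A B a1⁻¹))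
      have h1 := fixA (hg' (vA A B 1))
      have h1' := fixB (hg' (vB A B 1))
      have h2 := fixA (hg' (vA A B b1))
      have h2' := fixB (hg' (vB A B b1))
      have e0 : ((a1⁻¹ : GG A B) : G) = a⁻¹ := rfl
      have e1 : ((1 : GG A B) : G) = 1 := rfl
      have e2 : ((b1 : GG A B) : G) = b := rfl
      rw [e0] at h0 h0'
      rw [e1, inv_one, one_mul, mul_one] at h1 h1'
      rw [e2] at h2 h2'
      exact hcore _ (g : G) _ a b ⟨h0, h0'⟩ ⟨h1, h1'⟩ ⟨h2, h2'⟩ ha ha' hb hb' (by group) (by group)
    · intro hg
      ext v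
      rw [actHom_apply]
      change g • v = v
      rcases cases_v v with ⟨x, rfl⟩ | ⟨x, rfl⟩
      · rw [smul_vA, vA_eq]
        have e : ((g * x : GG A B) : G)⁻¹ * (x : G) = (g : G)⁻¹ := by
          rw [Subgroup.coe_mul, hZ _ hg]
          group
        rw [e]
        exact inv_mem (hZA hg)
      · rw [smul_vB, vB_eq]
        have e : ((g * x : GG A B) : G)⁻¹ * (x : G) = (g : G)⁻¹ := by
          rw [Subgroup.coe_mul, hZ _ hg]
          group
        rw [e]
        exact inv_mem (hZB hg)
  -- the image of the action is in the class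
  have hΓ : C ↥(actHom A B).range := by
    refine of_fg hC fun H hH => ?_
    refine hAc H (Vt A B) (tr A B) hH (tr_tree h) ?_ ?_ ⟨3, 1, ?_⟩ fun v => ?_
    · rintro ⟨⟨_, g, rfl⟩, hγ⟩ u v huv
      exact tr_act g u v huv
    · rintro ⟨⟨_, g, rfl⟩, hγ⟩ u v huv
      exact tr_inv g u v huv
    · intro u w p hp hlen F hF
      rw [Finset.card_le_one_iff_subset_singleton]
      refine ⟨1, fun γ hγ => ?_⟩
      rw [Finset.mem_singleton]
      obtain ⟨⟨γ', g, hg⟩, hγ'⟩ := γ
      have h1 : (g : G) ∈ Z := by
        refine path_three hcore hZ p hp hlen g fun x hx => ?_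
        have h2 := hF _ hγ x hx
        have h3 : γ' x = x := h2
        rw [← hg] at h3
        exact h3
      apply Subtype.ext
      apply Subtype.ext
      change γ' = 1
      rw [← hg]
      exact (hker g).2 h1
    · refine C_stab hC H v ?_
      -- the stabilizers in the image
      rcases cases_v v with ⟨x, rfl⟩ | ⟨x, rfl⟩
      · let S : Subgroup (GG A B) := MulAction.stabilizer (GG A B) (vA A B x)
        let σ : S →* ↥(MulAction.stabilizer ↥(actHom A B).range (vA A B x)) :=
          { toFun := fun s => ⟨⟨actHom A B (s : GG A B), ⟨_, rfl⟩⟩, s.2⟩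
            map_one' := by
              apply Subtype.ext
              apply Subtype.ext
              exact map_one (actHom A B)
            map_mul' := fun s t => by
              apply Subtype.ext
              apply Subtype.ext
              exact map_mul (actHom A B) (s : GG A B) (t : GG A B) }
        let f : S →* A :=
          { toFun := fun s => ⟨(x : G)⁻¹ * ((s : GG A B) : G) * (x : G), fixA s.2⟩
            map_one' := by
              apply Subtype.ext
              simp
            map_mul' := fun s t => by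
              apply Subtype.ext
              simp only [Subgroup.coe_mul]
              group }
        refine of_ker hC σ ?_ (fA.comp f) ?_ hP
        · rintro ⟨⟨_, g, rfl⟩, hg⟩
          exact ⟨⟨g, hg⟩, rfl⟩
        · intro s
          rw [MonoidHom.comp_apply, hfA]
          have h1 : σ s = 1 ↔ actHom A B (s : GG A B) = 1 := by
            constructor
            · intro hs
              exact congrArg (fun z : ↥(MulAction.stabilizer ↥(actHom A B).range (vA A B x)) =>
                ((z : ↥(actHom A B).range) : Equiv.Perm (Vt A B))) hs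
            · intro hs
              apply Subtype.ext
              apply Subtype.ext
              exact hs
          rw [h1, hker]
          change (x : G)⁻¹ * ((s : GG A B) : G) * (x : G) ∈ Z ↔ _
          constructor
          · intro hz
            have h2 := hZ _ hz (x : G)⁻¹
            have h3 : ((s : GG A B) : G) = (x : G)⁻¹ * ((s : GG A B) : G) * (x : G) := by
              have h4 : (x : G)⁻¹ * ((s : GG A B) : G) * (x : G) * (x : G)⁻¹ =
                (x : G)⁻¹ * ((s : GG A B) : G) := by group
              rw [h4] at h2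
              exact mul_left_cancel h2
            rw [h3]
            exact hz
          · intro hz
            have h2 := hZ _ hz (x : G)
            rw [mul_assoc, h2, inv_mul_cancel_left]
            exact hz
      · let S : Subgroup (GG A B) := MulAction.stabilizer (GG A B) (vB A B x)
        let σ : S →* ↥(MulAction.stabilizer ↥(actHom A B).range (vB A B x)) :=
          { toFun := fun s => ⟨⟨actHom A B (s : GG A B), ⟨_, rfl⟩⟩, s.2⟩
            map_one' := by
              apply Subtype.ext
              apply Subtype.ext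
              exact map_one (actHom A B)
            map_mul' := fun s t => by
              apply Subtype.ext
              apply Subtype.ext
              exact map_mul (actHom A B) (s : GG A B) (t : GG A B) }
        let f : S →* B :=
          { toFun := fun s => ⟨(x : G)⁻¹ * ((s : GG A B) : G) * (x : G), fixB s.2⟩
            map_one' := by
              apply Subtype.ext
              simp
            map_mul' := fun s t => by
              apply Subtype.ext
              simp only [Subgroup.coe_mul]
              group }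
        refine of_ker hC σ ?_ (fB.comp f) ?_ hQ
        · rintro ⟨⟨_, g, rfl⟩, hg⟩
          exact ⟨⟨g, hg⟩, rfl⟩
        · intro s
          rw [MonoidHom.comp_apply, hfB]
          have h1 : σ s = 1 ↔ actHom A B (s : GG A B) = 1 := by
            constructor
            · intro hs
              exact congrArg (fun z : ↥(MulAction.stabilizer ↥(actHom A B).range (vB A B x)) =>
                ((z : ↥(actHom A B).range) : Equiv.Perm (Vt A B))) hs
            · intro hs
              apply Subtype.ext
              apply Subtype.ext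
              exact hs
          rw [h1, hker]
          change (x : G)⁻¹ * ((s : GG A B) : G) * (x : G) ∈ Z ↔ _
          constructor
          · intro hz
            have h2 := hZ _ hz (x : G)⁻¹
            have h3 : ((s : GG A B) : G) = (x : G)⁻¹ * ((s : GG A B) : G) * (x : G) := by
              have h4 : (x : G)⁻¹ * ((s : GG A B) : G) * (x : G) * (x : G)⁻¹ =
                (x : G)⁻¹ * ((s : GG A B) : G) := by group
              rw [h4] at h2
              exact mul_left_cancel h2
            rw [h3]
            exact hz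
          · intro hz
            have h2 := hZ _ hz (x : G)
            rw [mul_assoc, h2, inv_mul_cancel_left]
            exact hz
  -- the central extension
  let N : Subgroup (GG A B) := (actHom A B).ker
  have hNc : ∀ n ∈ N, ∀ x : GG A B, n * x = x * n := by
    intro n hn x
    apply Subtype.ext
    exact hZ _ ((hker n).1 hn) (x : G)
  have comm : ∀ g : GG A B, ∀ x y : ↥(N ⊔ Subgroup.zpowers g), x * y = y * x := by
    rintro g ⟨x, hx⟩ ⟨y, hy⟩
    apply Subtype.ext
    change x * y = y * x
    obtain ⟨n, hn, z, hz, rfl⟩ := mem_sup_normal.1 hx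
    obtain ⟨m, hm, w, hw, rfl⟩ := mem_sup_normal.1 hy
    obtain ⟨i, rfl⟩ := Subgroup.mem_zpowers_iff.1 hz
    obtain ⟨j, rfl⟩ := Subgroup.mem_zpowers_iff.1 hw
    have e1 := hNc n hn
    have e2 := hNc m hm
    calc n * g ^ i * (m * g ^ j) = n * m * (g ^ i * g ^ j) := by
            rw [mul_assoc, ← mul_assoc (g ^ i) m, ← e2 (g ^ i)]
            simp only [mul_assoc]
      _ = m * n * (g ^ j * g ^ i) := by
            rw [e1 m, ← zpow_add, ← zpow_add, add_comm]
      _ = m * g ^ j * (n * g ^ i) := by
            rw [mul_assoc m (g ^ j), ← mul_assoc (g ^ j) n, ← e1 (g ^ j)]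
            simp only [mul_assoc]
  refine Pool.Agent.Y529.FJ.t_ext C hC (GG A B) N ?_ ?_ fun g _ => ?_
  · refine hS _ ?_
    apply Group.isSolvable_of_comm
    rintro ⟨x, hx⟩ ⟨y, hy⟩
    apply Subtype.ext
    exact hNc x hx y
  · exact C_equiv hC.base (QuotientGroup.quotientKerEquivRange (actHom A B)) hΓ
  · refine hS _ ?_
    exact Group.isSolvable_of_comm (comm g)

end Pool.Agent.U293.GE
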